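import Pool.Agent.L0h7.MS.Stm3

/-!
# Project MS, module FI6: conjugacy classes of subgroups of finite index
-/

set_option autoImplicit false

namespace Pool.Agent.L0h2.MS

open Pool.Agent.L0h7.MS

theorem t_FI6 : S_FI6 := by
  classical
  intro G _ hG H hH
  haveI : Finite (ConjClasses G) := hG
  haveI : H.FiniteIndex := hH
  haveI : Finite (G ⧸ H) := Subgroup.finite_quotient_of_finiteIndex
  obtain ⟨rep, hrep⟩ : ∃ rep : ConjClasses G → G, ∀ c, ConjClasses.mk (rep c) = c := by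
    have h0 : Function.Surjective (ConjClasses.mk (α := G)) := ConjClasses.mk_surjective
    exact ⟨Function.surjInv h0, Function.surjInv_eq h0⟩
  obtain ⟨F, hF⟩ : ∃ F : ConjClasses G × (G ⧸ H) → ConjClasses H, ∀ p,
      F p = if h : (p.2.out)⁻¹ * rep p.1 * p.2.out ∈ H then
        ConjClasses.mk ⟨(p.2.out)⁻¹ * rep p.1 * p.2.out, h⟩ else ConjClasses.mk 1 :=
    ⟨_, fun _ => rfl⟩
  refine Finite.of_surjective F ?_
  intro c
  obtain ⟨y, rfl⟩ := ConjClasses.mk_surjective c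
  obtain ⟨g, hg⟩ := isConj_iff.1 (ConjClasses.mk_eq_mk_iff_isConj.1 (hrep (ConjClasses.mk (y : G))))
  obtain ⟨x, hx⟩ : ∃ x, x = rep (ConjClasses.mk (y : G)) := ⟨_, rfl⟩
  rw [← hx] at hg
  obtain ⟨t, ht⟩ : ∃ t : G, t = ((g⁻¹ : G) : G ⧸ H).out := ⟨_, rfl⟩
  have h1 : t⁻¹ * g⁻¹ ∈ H := by
    have h2 : ((t : G) : G ⧸ H) = ((g⁻¹ : G) : G ⧸ H) := by
      rw [ht]
      exact QuotientGroup.out_eq' _
    exact QuotientGroup.eq.1 h2
  have h3 : t⁻¹ * x * t = (t⁻¹ * g⁻¹) * y * (t⁻¹ * g⁻¹)⁻¹ := by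
    rw [← hg]
    group
  have h4 : t⁻¹ * x * t ∈ H := by
    rw [h3]
    exact H.mul_mem (H.mul_mem h1 y.2) (H.inv_mem h1)
  refine ⟨(ConjClasses.mk (y : G), ((g⁻¹ : G) : G ⧸ H)), ?_⟩
  rw [hF]
  dsimp only
  rw [← hx, ← ht, dif_pos h4, ConjClasses.mk_eq_mk_iff_isConj]
  refine (isConj_iff.2 ⟨⟨t⁻¹ * g⁻¹, h1⟩, ?_⟩).symm
  apply Subtype.ext
  exact h3.symm

end Pool.Agent.L0h2.MS
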