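import Pool.Agent.L0h7.MS.Stm

/-!
# Project MS, module WRE: an overgroup with two generators of a power of the commutator subgroup
-/

set_option autoImplicit false
set_option linter.all false

namespace Pool.Agent.L0h2.MS

open Function Pool.Agent.L0h7.MS
open scoped commutatorElement

section core

variable {G Q : Type} [Group G] [CommGroup Q]

/-- the base group of the wreath product -/
def base : (Q → G) →* RegularWreathProduct G Q where
  toFun f := ⟨f, 1⟩
  map_one' := rfl
  map_mul' a b := by ext <;> simp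

theorem conj_inl (f : Q → G) (k : Q) :
    (RegularWreathProduct.inl k : RegularWreathProduct G Q) * base f *
      (RegularWreathProduct.inl k)⁻¹ = base (fun x => f (k⁻¹ * x)) := by
  ext <;> simp [base]

/-- reduction of the coordinates -/
def mapW : RegularWreathProduct G Q →* RegularWreathProduct (Abelianization G) Q where
  toFun w := ⟨fun x => Abelianization.of (w.left x), w.right⟩
  map_one' := by ext <;> simp
  map_mul' a b := by ext <;> simp

theorem core {r : ℕ} (g : Fin r → G) (hg : Subgroup.closure (Set.range g) = ⊤) (emb : Fin r → Q)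
    [Finite Q]
    (hS : ∀ i j s t, i ≠ j → emb s * (emb i)⁻¹ = emb t * (emb j)⁻¹ → s = i) (fu : Q → G)
    (h1 : ∀ i, fu (emb i) = g i) (h2 : ∀ x, (¬ ∃ i, emb i = x) → fu x = 1) (J : Subgroup (Q → G))
    (hJ : fu ∈ J) (hsh : ∀ f ∈ J, ∀ k : Q, (fun x => f (k⁻¹ * x)) ∈ J) :
    Subgroup.pi Set.univ (fun _ : Q => commutator G) ≤ J := by
  classical
  rw [Subgroup.pi_le_iff]
  intro q
  rw [Subgroup.map_le_iff_le_comap]
  obtain ⟨N, hN⟩ : ∃ N, N = J.comap (MonoidHom.mulSingle (fun _ : Q => G) q) := ⟨_, rfl⟩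
  rw [← hN]
  have hmem : ∀ x, x ∈ N ↔ (Pi.mulSingle q x : Q → G) ∈ J := by
    intro x
    rw [hN]
    rfl
  -- the shifts of `fu`
  obtain ⟨A, hA⟩ : ∃ A : Fin r → Q → G, ∀ i x, A i x = fu ((q * (emb i)⁻¹)⁻¹ * x) :=
    ⟨_, fun _ _ => rfl⟩
  have hAJ : ∀ i, A i ∈ J := by
    intro i
    have h3 := hsh fu hJ (q * (emb i)⁻¹)
    have h4 : A i = fun x => fu ((q * (emb i)⁻¹)⁻¹ * x) := funext (hA i)
    rw [h4]
    exact h3
  have hAq : ∀ i, A i q = g i := by
    intro i
    rw [hA, ← h1 i]
    congr 1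
    rw [mul_inv_rev, inv_inv, mul_assoc, inv_mul_cancel, mul_one]
  have hAx : ∀ i x, A i x ≠ 1 → ∃ s, emb s * (emb i)⁻¹ = q⁻¹ * x := by
    intro i x hne
    by_contra hcon
    apply hne
    rw [hA]
    apply h2
    rintro ⟨s, hs⟩
    apply hcon
    refine ⟨s, ?_⟩
    rw [hs, mul_inv_rev, inv_inv]
    have : emb i * q⁻¹ * x * (emb i)⁻¹ = q⁻¹ * x * (emb i * (emb i)⁻¹) := by
      rw [mul_comm (emb i) q⁻¹, mul_assoc, mul_assoc, mul_comm (emb i) (x * (emb i)⁻¹),
        mul_assoc x, mul_comm ((emb i)⁻¹), ← mul_assoc]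
    rw [this, mul_inv_cancel, mul_one]
  have hcomm : ∀ i j, ⁅g i, g j⁆ ∈ N := by
    intro i j
    by_cases hij : i = j
    · rw [hij, commutatorElement_self]
      exact N.one_mem
    · rw [hmem]
      have h3 : (Pi.mulSingle q ⁅g i, g j⁆ : Q → G) = ⁅A i, A j⁆ := by
        funext x
        rw [commutatorElement_def]
        show _ = A i x * A j x * (A i x)⁻¹ * (A j x)⁻¹
        by_cases hx : x = q
        · subst hx
          rw [Pi.mulSingle_eq_same, hAq, hAq]
        · rw [Pi.mulSingle_eq_of_ne hx]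
          by_cases hi : A i x = 1
          · rw [hi]
            simp
          · by_cases hj : A j x = 1
            · rw [hj]
              simp
            · exfalso
              obtain ⟨s, hs⟩ := hAx i x hi
              obtain ⟨t, ht⟩ := hAx j x hj
              have h4 := hS i j s t hij (hs.trans ht.symm)
              rw [h4, mul_inv_cancel] at hs
              exact hx (eq_of_inv_mul_eq_one hs.symm).symm
      rw [h3, commutatorElement_def]
      exact J.mul_mem (J.mul_mem (J.mul_mem (hAJ i) (hAJ j)) (J.inv_mem (hAJ i))) (J.inv_mem (hAJ j))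
  have hconj : ∀ h : G, ∀ x, x ∈ N ↔ h * x * h⁻¹ ∈ N := by
    intro h
    have hh : h ∈ Subgroup.closure (Set.range g) := by
      rw [hg]
      exact Subgroup.mem_top h
    induction hh using Subgroup.closure_induction with
    | mem y hy =>
      obtain ⟨i, rfl⟩ := hy
      intro x
      have h3 : (Pi.mulSingle q (g i * x * (g i)⁻¹) : Q → G) = A i * Pi.mulSingle q x * (A i)⁻¹ := by
        funext y
        show _ = A i y * (Pi.mulSingle q x : Q → G) y * (A i y)⁻¹
        by_cases hy : y = q
        · subst hy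
          rw [Pi.mulSingle_eq_same, Pi.mulSingle_eq_same, hAq]
        · rw [Pi.mulSingle_eq_of_ne hy, Pi.mulSingle_eq_of_ne hy, mul_one, mul_inv_cancel]
      rw [hmem, hmem, h3]
      constructor
      · intro h4
        exact J.mul_mem (J.mul_mem (hAJ i) h4) (J.inv_mem (hAJ i))
      · intro h4
        have h5 := J.mul_mem (J.mul_mem (J.inv_mem (hAJ i)) h4) (hAJ i)
        have h6 : (A i)⁻¹ * (A i * Pi.mulSingle q x * (A i)⁻¹) * A i = Pi.mulSingle q x := by group
        rwa [h6] at h5
    | one =>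
      intro x
      simp
    | mul a b _ _ ha hb =>
      intro x
      rw [hb x, ha (b * x * b⁻¹)]
      have h3 : a * (b * x * b⁻¹) * a⁻¹ = a * b * x * (a * b)⁻¹ := by group
      rw [h3]
    | inv a _ ha =>
      intro x
      have h3 := ha (a⁻¹ * x * a⁻¹⁻¹)
      have h4 : a * (a⁻¹ * x * a⁻¹⁻¹) * a⁻¹ = x := by group
      rw [h4] at h3
      exact h3.symm
  have hnor : N.Normal := ⟨fun x hx h => (hconj h x).1 hx⟩
  have hc1 : ∀ (j : Fin r) (x : G), Commute (QuotientGroup.mk' N x) (QuotientGroup.mk' N (g j)) := by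
    intro j x
    have hx : x ∈ Subgroup.closure (Set.range g) := by
      rw [hg]
      exact Subgroup.mem_top x
    induction hx using Subgroup.closure_induction with
    | mem y hy =>
      obtain ⟨i, rfl⟩ := hy
      rw [← commutatorElement_eq_one_iff_commute, ← map_commutatorElement]
      exact (QuotientGroup.eq_one_iff _).2 (hcomm i j)
    | one =>
      rw [map_one]
      exact Commute.one_left _
    | mul a b _ _ ha hb =>
      rw [map_mul]
      exact ha.mul_left hb
    | inv a _ ha =>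
      rw [map_inv]
      exact ha.inv_left
  have hc2 : ∀ x y : G, Commute (QuotientGroup.mk' N x) (QuotientGroup.mk' N y) := by
    intro x y
    have hy : y ∈ Subgroup.closure (Set.range g) := by
      rw [hg]
      exact Subgroup.mem_top y
    induction hy using Subgroup.closure_induction with
    | mem y hy =>
      obtain ⟨i, rfl⟩ := hy
      exact hc1 i x
    | one =>
      rw [map_one]
      exact Commute.one_right _
    | mul a b _ _ ha hb =>
      rw [map_mul]
      exact ha.mul_right hb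
    | inv a _ ha =>
      rw [map_inv]
      exact ha.inv_right
  rw [commutator_def, Subgroup.commutator_le]
  intro x _ y _
  have h3 := hc2 x y
  rw [← commutatorElement_eq_one_iff_commute, ← map_commutatorElement] at h3
  exact (QuotientGroup.eq_one_iff _).1 h3

/-- the construction -/
theorem wre [Finite Q] (c₀ : Q) (hc₀ : ∀ k : Q, ∃ n : ℕ, k = c₀ ^ n) {r : ℕ} (g : Fin r → G)
    (hg : Subgroup.closure (Set.range g) = ⊤) (emb : Fin r → Q) (hinj : Injective emb)
    (hS : ∀ i j s t, i ≠ j → emb s * (emb i)⁻¹ = emb t * (emb j)⁻¹ → s = i)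
    (hab : Finite (Abelianization G)) :
    ∃ (H : Type) (_ : Group H) (K : Subgroup H), K.Normal ∧ K.FiniteIndex ∧
      Nonempty (K ≃* (Fin (Nat.card Q) → commutator G)) ∧ Gen 2 H ∧
      ∀ n : ℕ, (∀ g : G, g ^ n = 1) → ∀ h : H, h ^ (n * Nat.card Q) = 1 := by
  classical
  obtain ⟨fu, hfu⟩ : ∃ fu : Q → G, fu = Function.extend emb g (fun _ => 1) := ⟨_, rfl⟩
  have h1 : ∀ i, fu (emb i) = g i := by
    intro i
    rw [hfu]
    exact hinj.extend_apply g _ i
  have h2 : ∀ x, (¬ ∃ i, emb i = x) → fu x = 1 := by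
    intro x hx
    rw [hfu]
    exact Function.extend_apply' g _ x hx
  obtain ⟨u, hu⟩ : ∃ u : RegularWreathProduct G Q, u = base fu := ⟨_, rfl⟩
  obtain ⟨c, hc⟩ : ∃ c : RegularWreathProduct G Q, c = RegularWreathProduct.inl c₀ := ⟨_, rfl⟩
  obtain ⟨H, hH⟩ : ∃ H : Subgroup (RegularWreathProduct G Q), H = Subgroup.closure {u, c} :=
    ⟨_, rfl⟩
  have huH : u ∈ H := by
    rw [hH]
    exact Subgroup.subset_closure (by simp)
  have hcH : c ∈ H := by
    rw [hH]
    exact Subgroup.subset_closure (by simp)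
  have hkH : ∀ k : Q, (RegularWreathProduct.inl k : RegularWreathProduct G Q) ∈ H := by
    intro k
    obtain ⟨n, hn⟩ := hc₀ k
    rw [hn, map_pow, ← hc]
    exact H.pow_mem hcH n
  have hcore := core g hg emb hS fu h1 h2 (H.comap base) (by
    rw [Subgroup.mem_comap, ← hu]
    exact huH) (by
    intro f hf k
    rw [Subgroup.mem_comap] at hf ⊢
    rw [← conj_inl]
    exact H.mul_mem (H.mul_mem (hkH k) hf) (H.inv_mem (hkH k)))
  have hbase : ∀ f : Q → G, (∀ x, f x ∈ commutator G) → base f ∈ H := by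
    intro f hf
    have h3 := hcore (show f ∈ Subgroup.pi Set.univ (fun _ : Q => commutator G) from fun x _ => hf x)
    rwa [Subgroup.mem_comap] at h3
  obtain ⟨ψ, hψ⟩ : ∃ ψ : H →* RegularWreathProduct (Abelianization G) Q,
    ψ = mapW.comp H.subtype := ⟨_, rfl⟩
  have hψv : ∀ h : H, ψ h = mapW (h : RegularWreathProduct G Q) := by
    intro h
    rw [hψ]
    rfl
  obtain ⟨ε⟩ : Nonempty (Q ≃ Fin (Nat.card Q)) := ⟨Finite.equivFin Q⟩
  refine ⟨H, inferInstance, ψ.ker, inferInstance, inferInstance, ?_, ?_, ?_⟩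
  · -- the kernel
    have hker : ∀ f : Fin (Nat.card Q) → commutator G,
        mapW (base (fun x => (f (ε x) : G)) : RegularWreathProduct G Q) = 1 := by
      intro f
      refine RegularWreathProduct.ext ?_ rfl
      funext x
      show Abelianization.of (f (ε x) : G) = 1
      have h3 : (f (ε x) : G) ∈ (Abelianization.of (G := G)).ker := by
        rw [Abelianization.ker_of]
        exact (f (ε x)).2
      exact h3
    obtain ⟨φ, hφ⟩ : ∃ φ : (Fin (Nat.card Q) → commutator G) →* ψ.ker, ∀ f,
        ((φ f : H) : RegularWreathProduct G Q) = base (fun x => (f (ε x) : G)) := by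
      refine ⟨{ toFun := fun f => ⟨⟨base (fun x => (f (ε x) : G)),
                  hbase _ (fun x => (f (ε x)).2)⟩, ?_⟩
                map_one' := ?_
                map_mul' := ?_ }, fun f => rfl⟩
      · rw [MonoidHom.mem_ker, hψv]
        exact hker f
      · apply Subtype.ext
        apply Subtype.ext
        rfl
      · intro a b
        apply Subtype.ext
        apply Subtype.ext
        show base (fun x => ((a * b) (ε x) : G)) = base (fun x => (a (ε x) : G)) *
          base (fun x => (b (ε x) : G))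
        rw [← map_mul]
        rfl
    refine ⟨(MulEquiv.ofBijective φ ⟨?_, ?_⟩).symm⟩
    · intro a b hab
      have h3 : base (fun x => (a (ε x) : G)) = base (fun x => (b (ε x) : G)) := by
        rw [← hφ, ← hφ, hab]
      have h4 : (fun x => (a (ε x) : G)) = fun x => (b (ε x) : G) :=
        congrArg RegularWreathProduct.left h3
      funext i
      apply Subtype.ext
      have h5 := congrFun h4 (ε.symm i)
      simpa using h5
    · rintro ⟨⟨w, hw⟩, hk⟩
      rw [MonoidHom.mem_ker, hψv] at hk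
      have hk' : mapW w = 1 := hk
      have h3 : w.right = 1 := congrArg RegularWreathProduct.right hk'
      have h4 : ∀ x, w.left x ∈ commutator G := by
        intro x
        have h5 : Abelianization.of (w.left x) = 1 :=
          congrFun (congrArg RegularWreathProduct.left hk') x
        have h6 : w.left x ∈ (Abelianization.of (G := G)).ker := h5
        rwa [Abelianization.ker_of] at h6
      refine ⟨fun i => ⟨w.left (ε.symm i), h4 _⟩, ?_⟩
      apply Subtype.ext
      apply Subtype.ext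
      rw [hφ]
      refine RegularWreathProduct.ext ?_ ?_
      · funext x
        show w.left (ε.symm (ε x)) = w.left x
        rw [Equiv.symm_apply_apply]
      · exact h3.symm
  · -- two generators
    refine ⟨FreeGroup.lift ![⟨u, huH⟩, ⟨c, hcH⟩], ?_⟩
    have h3 : ∀ w ∈ Subgroup.closure {u, c}, ∃ a : FreeGroup (Fin 2),
        ((FreeGroup.lift ![(⟨u, huH⟩ : H), ⟨c, hcH⟩] a : H) : RegularWreathProduct G Q) = w := by
      intro w hw
      induction hw using Subgroup.closure_induction with
      | mem y hy =>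
        rcases hy with hy | hy
        · refine ⟨FreeGroup.of 0, ?_⟩
          rw [FreeGroup.lift_apply_of, hy]
          rfl
        · refine ⟨FreeGroup.of 1, ?_⟩
          rw [FreeGroup.lift_apply_of, Set.mem_singleton_iff.1 hy]
          rfl
      | one => exact ⟨1, by rw [map_one]; rfl⟩
      | mul a b _ _ ha hb =>
        obtain ⟨a', ha'⟩ := ha
        obtain ⟨b', hb'⟩ := hb
        exact ⟨a' * b', by rw [map_mul, Subgroup.coe_mul, ha', hb']⟩
      | inv a _ ha =>
        obtain ⟨a', ha'⟩ := ha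
        exact ⟨a'⁻¹, by rw [map_inv, Subgroup.coe_inv, ha']⟩
    rintro ⟨w, hw⟩
    obtain ⟨a, ha⟩ := h3 w (by rw [← hH]; exact hw)
    exact ⟨a, Subtype.ext ha⟩
  · -- the exponent
    intro n hn h
    apply Subtype.ext
    rw [Subgroup.coe_pow, Subgroup.coe_one]
    obtain ⟨w, hw⟩ : ∃ w, w = (h : RegularWreathProduct G Q) := ⟨_, rfl⟩
    rw [← hw, Nat.mul_comm, pow_mul]
    have h3 : (w ^ Nat.card Q).right = 1 := by
      have h4 := map_pow (RegularWreathProduct.rightHom (D := G) (Q := Q)) w (Nat.card Q)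
      rw [RegularWreathProduct.rightHom_eq_right] at h4
      rw [h4, pow_card_eq_one']
    have h5 : w ^ Nat.card Q = base (w ^ Nat.card Q).left := by
      refine RegularWreathProduct.ext rfl h3
    rw [h5, ← map_pow]
    have h6 : (w ^ Nat.card Q).left ^ n = 1 := by
      funext x
      exact hn _
    rw [h6, map_one]

end core

/-- powers of three -/
theorem sidon {s j t i : ℕ} (h : 3 ^ s + 3 ^ j = 3 ^ t + 3 ^ i) (hij : i ≠ j) : s = i := by
  obtain ⟨P, hP⟩ : ∃ P : ℕ → ℕ, ∀ a, P a = 3 ^ a := ⟨_, fun _ => rfl⟩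
  have h1 : ∀ a b, a < b → 3 * P a ≤ P b := by
    intro a b hab
    rw [hP, hP]
    calc 3 * 3 ^ a = 3 ^ (a + 1) := by ring
      _ ≤ 3 ^ b := Nat.pow_le_pow_right (by norm_num) hab
  have h0 : ∀ a, 0 < P a := fun a => by
    rw [hP]
    positivity
  rw [← hP, ← hP, ← hP, ← hP] at h
  have ps := h0 s
  have pj := h0 j
  have pt := h0 t
  have pi := h0 i
  by_contra hsi
  rcases lt_or_gt_of_ne hsi with a1 | a1 <;> rcases lt_or_gt_of_ne hij with a2 | a2 <;>
    rcases lt_trichotomy t j with a3 | a3 | a3 <;> rcases lt_trichotomy t s with a4 | a4 | a4 <;>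
    (have b1 := h1 _ _ a1
     have b2 := h1 _ _ a2
     first
      | (have b3 := h1 _ _ a3
         have b4 := h1 _ _ a4
         omega)
      | (subst a3
         have b4 := h1 _ _ a4
         omega)
      | (subst a3
         subst a4
         omega)
      | (have b3 := h1 _ _ a3
         subst a4
         omega)
      | omega)

/-- the construction for all large `m` -/
theorem large (G : Type) [Group G] (hG : Group.FG G) (hab : Finite (Abelianization G)) :
    ∃ m₀ : ℕ, ∀ m : ℕ, m₀ ≤ m → ∃ (H : Type) (_ : Group H) (K : Subgroup H), K.Normal ∧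
      K.FiniteIndex ∧ Nonempty (K ≃* (Fin m → commutator G)) ∧ Gen 2 H ∧
      ∀ n : ℕ, (∀ g : G, g ^ n = 1) → ∀ h : H, h ^ (n * m) = 1 := by
  obtain ⟨S, hS⟩ := Group.fg_def.1 hG
  obtain ⟨r, hr⟩ : ∃ r, r = S.card := ⟨_, rfl⟩
  obtain ⟨g, hg⟩ : ∃ g : Fin r → G, Set.range g = S := by
    refine ⟨fun i => (S.equivFin.symm (Fin.cast hr i) : G), ?_⟩
    subst hr
    ext x
    constructor
    · rintro ⟨i, rfl⟩
      exact (S.equivFin.symm _).2
    · intro hx
      exact ⟨S.equivFin ⟨x, hx⟩, by simp⟩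
  refine ⟨2 * 3 ^ r + 1, fun m hm => ?_⟩
  obtain ⟨M, rfl⟩ : ∃ M, m = M + 1 := ⟨m - 1, by omega⟩
  have hlt : ∀ i j : Fin r, 3 ^ (i : ℕ) + 3 ^ (j : ℕ) < M + 1 := by
    intro i j
    have h1 : 3 ^ (i : ℕ) ≤ 3 ^ r := Nat.pow_le_pow_right (by norm_num) i.isLt.le
    have h2 : 3 ^ (j : ℕ) ≤ 3 ^ r := Nat.pow_le_pow_right (by norm_num) j.isLt.le
    omega
  have hcard : Nat.card (Multiplicative (ZMod (M + 1))) = M + 1 := by
    rw [Nat.card_eq_fintype_card, Fintype.card_multiplicative, ZMod.card]
  have hmain := wre (Q := Multiplicative (ZMod (M + 1))) (Multiplicative.ofAdd 1) (fun k => by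
      refine ⟨(Multiplicative.toAdd k).val, ?_⟩
      rw [← ofAdd_nsmul, nsmul_one, ZMod.natCast_zmod_val]
      rfl) g (by rw [hg, hS])
    (fun i => Multiplicative.ofAdd ((3 ^ (i : ℕ) : ℕ) : ZMod (M + 1))) (by
      intro i j hij
      have h1 : ((3 ^ (i : ℕ) : ℕ) : ZMod (M + 1)) = ((3 ^ (j : ℕ) : ℕ) : ZMod (M + 1)) :=
        Multiplicative.ofAdd.injective hij
      rw [ZMod.natCast_eq_natCast_iff', Nat.mod_eq_of_lt (by have := hlt i i; omega),
        Nat.mod_eq_of_lt (by have := hlt j j; omega)] at h1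
      exact Fin.ext (Nat.pow_right_injective (le_refl 2 |>.trans (by norm_num)) h1)) (by
      intro i j s t hij h
      have h1 : ((3 ^ (s : ℕ) : ℕ) : ZMod (M + 1)) - ((3 ^ (i : ℕ) : ℕ) : ZMod (M + 1)) =
          ((3 ^ (t : ℕ) : ℕ) : ZMod (M + 1)) - ((3 ^ (j : ℕ) : ℕ) : ZMod (M + 1)) := by
        rw [sub_eq_add_neg, sub_eq_add_neg]
        exact h
      have h2 : ((3 ^ (s : ℕ) + 3 ^ (j : ℕ) : ℕ) : ZMod (M + 1)) =
          ((3 ^ (t : ℕ) + 3 ^ (i : ℕ) : ℕ) : ZMod (M + 1)) := by
        rw [Nat.cast_add, Nat.cast_add]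
        linear_combination h1
      rw [ZMod.natCast_eq_natCast_iff', Nat.mod_eq_of_lt (hlt s j), Nat.mod_eq_of_lt (hlt t i)] at h2
      exact Fin.ext (sidon h2 (fun h => hij (Fin.ext h)))) hab
  rw [hcard] at hmain
  exact hmain

theorem t_WRE : S_WRE := by
  intro G _ h1 h2
  obtain ⟨m₀, h3⟩ := large G h1 h2
  obtain ⟨H, i, K, h4, h5, h6, h7, h8⟩ := h3 (m₀ + 1) (by omega)
  exact ⟨m₀ + 1, H, i, K, by omega, h4, h5, h6, h7, h8⟩

end Pool.Agent.L0h2.MS
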