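import Pool.Agent.L0h7.MS.Stm2
import Pool.Agent.L0h2.MS.WRE

/-!
# Project MS, module WR2: as WRE, for all large `m`
-/

set_option autoImplicit false

namespace Pool.Agent.L0h2.MS

open Pool.Agent.L0h7.MS

theorem t_WR2 : S_WR2 := by
  intro G _ h1 h2
  exact large G h1 h2

end Pool.Agent.L0h2.MS
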